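import Mathlib

/-!
# Cohomology of the generic points of varieties: the axioms

`H i K` is the part of weight `i` of the cohomology in degree `i` of the generic point of a variety
over `Ω` with function field `K`, that is `H^i(X)` modulo the classes supported on divisors, `X`
smooth projective.
-/

set_option autoImplicit false

namespace Pool.Agent.Helper35.GE

open IntermediateField CategoryTheory MonoidalCategory

/-- The vector spaces `H i K`, the homomorphisms induced by homomorphisms of fields, and the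
products `H 2 K ⊗ H 1 K → H 3 K`. -/
structure Coh (Ω L : Type) [Field Ω] [Field L] where
  H : ℕ → (K : Type) → [Field K] → [Algebra Ω K] → ModuleCat.{0} L
  map : ∀ (i : ℕ) {K K' : Type} [Field K] [Algebra Ω K] [Field K'] [Algebra Ω K'],
    (K →ₐ[Ω] K') → (H i K ⟶ H i K')
  cup : ∀ (K : Type) [Field K] [Algebra Ω K], H 2 K ⊗ H 1 K ⟶ H 3 K

variable {Ω L : Type} [Field Ω] [Field L]

/-- functoriality -/
def Coh.MapId (T : Coh Ω L) : Prop :=
  ∀ (i : ℕ) (K : Type) [Field K] [Algebra Ω K], T.map i (AlgHom.id Ω K) = 𝟙 (T.H i K)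

/-- functoriality -/
def Coh.MapComp (T : Coh Ω L) : Prop :=
  ∀ (i : ℕ) (K K' K'' : Type) [Field K] [Algebra Ω K] [Field K'] [Algebra Ω K'] [Field K'']
    [Algebra Ω K''] (g : K →ₐ[Ω] K') (h : K' →ₐ[Ω] K''),
    T.map i (h.comp g) = T.map i g ≫ T.map i h

/-- finiteness -/
def Coh.Finite (T : Coh Ω L) : Prop :=
  ∀ (i : ℕ) (K : Type) [Field K] [Algebra Ω K], (⊤ : IntermediateField Ω K).FG →
    FiniteDimensional L (T.H i K)

/-- transfer -/
def Coh.Transfer (T : Coh Ω L) : Prop :=
  ∀ (i : ℕ) (K K' : Type) [Field K] [Algebra Ω K] [Field K'] [Algebra Ω K'] (g : K →ₐ[Ω] K'),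
    (∀ a : K', IsAlgebraic g.fieldRange a) → Function.Injective (T.map i g).hom

/-- Galois descent -/
def Coh.Descent (T : Coh Ω L) : Prop :=
  ∀ (i : ℕ) (K : Type) [Field K] [Algebra Ω K] (N : IntermediateField Ω K)
    [FiniteDimensional N K] [IsGalois N K] (z : T.H i K),
    (∀ τ : K →ₐ[N] K, (T.map i (τ.restrictScalars Ω)).hom z = z) → ∃ s, (T.map i N.val).hom s = z

/-- The elements of `E` which are algebraic over the field generated over `Ω` by `S`. -/
def acl (Ω : Type) {E : Type} [Field Ω] [Field E] [Algebra Ω E] (S : Set E) : Set E :=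
  {a | IsAlgebraic (adjoin Ω S) a}

/-- The extension `K` of `Ω` is contained in a field `M(θ)`, where `M` is algebraic over a field
generated over `Ω` by fewer than `i` elements. -/
def Uniruled (Ω K : Type) [Field Ω] [Field K] [Algebra Ω K] (i : ℕ) : Prop :=
  ∃ (E : Type) (_ : Field E) (_ : Algebra Ω E) (g : K →ₐ[Ω] E) (S : Finset E) (θ : E),
    S.card < i ∧ ∀ k, g k ∈ adjoin Ω (acl Ω (S : Set E) ∪ {θ})

/-- vanishing in degrees above the dimension, and in the degree of the dimension if the variety is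
uniruled -/
def Coh.Vanishing (T : Coh Ω L) : Prop :=
  ∀ (i : ℕ) (K : Type) [Field K] [Algebra Ω K], Uniruled Ω K i → ∀ z : T.H i K, z = 0

/-- naturality of the product -/
def Coh.Natural (T : Coh Ω L) : Prop :=
  ∀ (K K' : Type) [Field K] [Algebra Ω K] [Field K'] [Algebra Ω K'] (g : K →ₐ[Ω] K'),
    T.cup K ≫ T.map 3 g = (T.map 2 g ⊗ₘ T.map 1 g) ≫ T.cup K'

/-- `C` is the function field of the curve `u ^ n = v ^ α * (1 - v) ^ β`, and `σ` its automorphism
`u ↦ ζ u`, where `ζ` is a primitive root of unity of order `n`. -/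
structure IsCurve {Ω C : Type} [Field Ω] [Field C] [Algebra Ω C] (n α β : ℕ) (ζ : Ω) (v u : C)
    (σ : C →ₐ[Ω] C) : Prop where
  tame : (n : Ω) ≠ 0
  root : IsPrimitiveRoot ζ n
  transc : Transcendental Ω v
  eq : u ^ n = v ^ α * (1 - v) ^ β
  gen : adjoin Ω {v, u} = ⊤
  fix : σ v = v
  mul : σ u = algebraMap Ω C ζ * u

/-- the cohomology of the curve `u ^ n = v ^ α * (1 - v) ^ β` as a representation of its group of
automorphisms `u ↦ ζ u` -/
def Coh.Curves (T : Coh Ω L) : Prop :=
  ∀ (C : Type) [Field C] [Algebra Ω C] (n α β : ℕ) (ζ : Ω) (v u : C) (σ : C →ₐ[Ω] C),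
    IsCurve n α β ζ v u σ → ∀ ξ : L, ξ ^ n = 1 → ξ ^ α ≠ 1 → ξ ^ β ≠ 1 → ξ ^ (α + β) ≠ 1 →
      ∃ z : T.H 1 C, z ≠ 0 ∧ (T.map 1 σ).hom z = ξ • z

/-- The axioms. -/
structure Coh.IsBase (T : Coh Ω L) : Prop where
  map_id : T.MapId
  map_comp : T.MapComp
  finite : T.Finite
  transfer : T.Transfer
  descent : T.Descent
  vanishing : T.Vanishing
  natural : T.Natural
  curves : T.Curves

/-- the product of the inverse images of a class of `K` and a class of `C` -/
noncomputable def Coh.cross (T : Coh Ω L) {K C N : Type} [Field K] [Algebra Ω K] [Field C]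
    [Algebra Ω C] [Field N] [Algebra Ω N] (a : K →ₐ[Ω] N) (b : C →ₐ[Ω] N) :
    T.H 2 K ⊗ T.H 1 C ⟶ T.H 3 N :=
  (T.map 2 a ⊗ₘ T.map 1 b) ≫ T.cup N

/-- `N` contains the function field of the product of the surface with function field `K` and the
curve with function field `C`. -/
structure IsProd {Ω K C N : Type} [Field Ω] [Field K] [Algebra Ω K] [Field C] [Algebra Ω C]
    [Field N] [Algebra Ω N] (a : K →ₐ[Ω] N) (b : C →ₐ[Ω] N) : Prop where
  fgK : (⊤ : IntermediateField Ω K).FG
  fgC : (⊤ : IntermediateField Ω C).FG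
  surface : ∃ x y : K, ∀ k : K, k ∈ acl Ω {x, y}
  curve : ∃ v : C, (∀ k : C, k ∈ acl Ω {v}) ∧ Transcendental a.fieldRange (b v)

end Pool.Agent.Helper35.GE
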