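import Pool.Agent.Helper35.GE.Base
import Pool.Agent.Helper75.QC.Defs

/-! From the axioms as stated in `GE` to the structure used in the proofs. -/

set_option autoImplicit false

namespace Pool.Agent.Helper35.GE

open IntermediateField TensorProduct Pool.Agent.Helper75.QC

variable {Ω L : Type} [Field Ω] [Field L]

/-- the structure used in the proofs -/
noncomputable def Coh.toBase (T : Coh Ω L) (h : T.IsBase) : BaseTheory Ω L where
  H := fun i K _ _ => T.H i K
  map := fun i {K K'} _ _ _ _ g => (T.map i g).hom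
  map_id := fun i K _ _ => by rw [h.map_id i K]; rfl
  map_comp := fun i {K K' K''} _ _ _ _ _ _ g g' => by rw [h.map_comp i K K' K'' g g']; rfl
  fin := h.finite
  inj := fun i {K K'} _ _ _ _ g hg => h.transfer i K K' g hg
  descent := fun i K _ _ N _ _ z hz => h.descent i K N z hz
  uniruled := h.vanishing
  cup := fun K _ _ => TensorProduct.curry (T.cup K).hom
  pull_mul := fun {K K'} _ _ _ _ g a b => by
    have h1 := h.natural K K' g
    exact congrArg (fun f => f.hom (a ⊗ₜ[L] b)) h1
  curve' := fun C _ _ n α β ζ v u σ h1 h2 h3 h4 h5 h6 h7 ξ e1 e2 e3 e4 =>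
    h.curves C n α β ζ v u σ ⟨h1, h2, h3, h4, h5, h6, h7⟩ ξ e1 e2 e3 e4

theorem Coh.cross_eq (T : Coh Ω L) {K C N : Type} [Field K] [Algebra Ω K] [Field C]
    [Algebra Ω C] [Field N] [Algebra Ω N] (a : K →ₐ[Ω] N) (b : C →ₐ[Ω] N) :
    (T.cross a b).hom = TensorProduct.lift ((TensorProduct.curry (T.cup N).hom).compl₁₂
      (T.map 2 a).hom (T.map 1 b).hom) :=
  TensorProduct.ext' fun _ _ => rfl

end Pool.Agent.Helper35.GE
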