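import Pool.Agent.Helper35.GE.Galois
import Pool.Agent.Helper35.GE.Conv
import Pool.Agent.Helper35.TD.Main
import Pool.Agent.Helper40.TG.Gen

/-! From the axioms as stated in `GE` to the structures used in the proofs. -/

set_option autoImplicit false

namespace Pool.Agent.Helper35.GE

open IntermediateField TensorProduct CategoryTheory Pool.Agent.Helper75.QC

variable {F Ω L : Type} [Field F] [Field Ω] [Algebra F Ω] [Field L]

/-- the structure used in the proofs -/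
noncomputable def GalCoh.toTheory (T : GalCoh F Ω L) (h : T.IsGalois) :
    Pool.Agent.Helper35.TD.GaloisTheory F Ω L where
  toBaseTheory := T.toCoh.toBase h.base
  act := fun i {K K'} _ _ _ _ γ => (T.act i γ).hom
  act_map := fun i {K K'} _ _ _ _ g => congrArg ModuleCat.Hom.hom (h.act_map i K K' g)
  act_comp := fun i {K K' K''} _ _ _ _ _ _ σ τ γ δ h1 h2 =>
    congrArg ModuleCat.Hom.hom (h.act_comp i K K' K'' σ τ γ δ h1 h2)
  cyc := T.cyc
  alg := fun K K' _ _ _ _ => Submodule.span L {A | ModuleCat.ofHom A ∈ T.alg K K'}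
  semisimple := fun K _ _ U γ hK hU hγ P hP => h.semisimple K U γ hK hU hγ P hP
  tate := fun K K' _ _ _ _ U γ γ' hK hK' hU hγ hγ' A hA => by
    refine Submodule.subset_span ?_
    refine h.tate K K' U γ γ' hK hK' hU hγ hγ' (ModuleCat.ofHom A) fun τ hτ => ?_
    exact ModuleCat.hom_ext (LinearMap.ext fun t => (hA τ hτ t).symm)
  gysin := fun {K C N} _ _ _ _ _ _ a b x y v U γ γ' h1 h2 h3 h4 h5 hU hγ hγ' => by
    obtain ⟨V, D, iD, jD, δ, g, hVU, hV, hD, hδ, hg, hk, hA⟩ :=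
      h.gysin K C N a b ⟨h1, h2, ⟨x, y, h3⟩, ⟨v, h4, h5⟩⟩ U γ γ' hU hγ hγ'
    refine ⟨V, D, iD, jD, δ, g.hom, hVU, hV, hD, hδ, fun τ hτ s => ?_, fun t => ?_,
      fun A hAm ξ => ?_⟩
    · have e := congrArg (fun f => f.hom s) (hg τ hτ)
      have e' : (T.cyc τ : L) • (TensorProduct.map (T.act 2 (γ τ)).hom (T.act 1 (γ' τ)).hom
          (g.hom s)) = g.hom ((T.act 1 (δ τ)).hom s) := e
      show TensorProduct.map (T.act 2 (γ τ)).hom (T.act 1 (γ' τ)).hom (g.hom s) =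
        ((T.cyc τ)⁻¹ : Lˣ) • g.hom ((T.act 1 (δ τ)).hom s)
      rw [← e', eq_inv_smul_iff]
      rfl
    · have e : TensorProduct.lift ((TensorProduct.curry (T.cup N).hom).compl₁₂
          (T.map 2 a).hom (T.map 1 b).hom) t = (T.cross a b).hom t := by
        rw [T.toCoh.cross_eq a b]
      show TensorProduct.lift ((TensorProduct.curry (T.cup N).hom).compl₁₂
          (T.map 2 a).hom (T.map 1 b).hom) t = 0 ↔ _
      rw [e]
      exact hk t
    · show LinearMap.trace L (T.H 1 C)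
        (TensorProduct.lid L (T.H 1 C) ∘ₗ ξ.rTensor (T.H 1 C) ∘ₗ g.hom ∘ₗ A) = 0
      have hlin : Submodule.span L {A | ModuleCat.ofHom A ∈ T.alg C D} ≤ LinearMap.ker
          (LinearMap.trace L (T.H 1 C) ∘ₗ LinearMap.llcomp L (T.H 1 C) (T.H 1 D) (T.H 1 C)
            (TensorProduct.lid L (T.H 1 C) ∘ₗ ξ.rTensor (T.H 1 C) ∘ₗ g.hom)) := by
        rw [Submodule.span_le]
        intro B hB
        exact hA (ModuleCat.ofHom B) hB (ModuleCat.ofHom ξ)
      exact hlin hAm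

/-- from `NoTate` to the subrepresentations -/
theorem GalCoh.le_ns [IsAlgClosed L] (T : GalCoh F Ω L) (h : T.IsGalois) {K₀ : Type} [Field K₀]
    [Algebra Ω K₀] (hfin : (⊤ : IntermediateField Ω K₀).FG)
    (H : Pool.Agent.Helper35.TD.NoTate (T.toTheory h) K₀)
    (U : Subgroup (Ω ≃ₐ[F] Ω)) (hU : IsOpen (U : Set (Ω ≃ₐ[F] Ω)))
    (γ : (Ω ≃ₐ[F] Ω) → (K₀ →+* K₀)) (hγ : IsForm U γ) {V : ModuleCat.{0} L}
    (ρ : (Ω ≃ₐ[F] Ω) → (V ⟶ V)) (r : V ⟶ T.H 2 K₀) (NS : Submodule L V)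
    (hV : T.IsH2 U γ ρ r NS) (P : Submodule L V) (hP : T.IsTateSub ρ P) : P ≤ NS :=
  Pool.Agent.Helper40.TG.NoTate.gen (T.toTheory h) hfin H U hU γ hγ
    (fun τ => (ρ τ).hom) r.hom NS
    ⟨fun τ hτ v => congrArg (fun f => f.hom v) (hV.comm τ hτ), Submodule.ext fun v => hV.ker v⟩ P hP

end Pool.Agent.Helper35.GE
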