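import Pool.Agent.Helper35.GE.Base

/-!
# The action of the Galois group on the cohomology of the generic points of varieties: the axioms

`Ω` is an algebraic closure of `F`, a number field or a finite field.
-/

set_option autoImplicit false

namespace Pool.Agent.Helper35.GE

open IntermediateField CategoryTheory MonoidalCategory

/-- `γ` is a homomorphism of extension fields of `Ω` over the automorphism `τ` of `Ω`. -/
def IsOver {Ω K K' : Type} [Field Ω] [Field K] [Algebra Ω K] [Field K'] [Algebra Ω K']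
    (τ : Ω ≃+* Ω) (γ : K →+* K') : Prop :=
  ∀ a : Ω, γ (algebraMap Ω K a) = algebraMap Ω K' (τ a)

/-- `γ` is the action of the subgroup `U` of the Galois group of `Ω` over `F` on the field
`K = K₁ ⊗ Ω`, where `K₁` is the field of the elements fixed by `U`: `K` is the function field of a
variety which is defined over the field of the elements of `Ω` fixed by `U`. -/
def IsForm {F Ω K : Type} [Field F] [Field Ω] [Algebra F Ω] [Field K] [Algebra Ω K]
    (U : Subgroup (Ω ≃ₐ[F] Ω)) (γ : (Ω ≃ₐ[F] Ω) → (K →+* K)) : Prop :=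
  (∀ τ ∈ U, IsOver (τ : Ω ≃+* Ω) (γ τ)) ∧ adjoin Ω {a : K | ∀ τ ∈ U, γ τ a = a} = ⊤

/-- The homomorphisms `act` of the spaces `H i K` induced by homomorphisms of fields over
automorphisms of `Ω`, the cyclotomic character, and the set `alg` of the linear combinations of the
homomorphisms `H 1 K → H 1 K'` given by correspondences. -/
structure GalCoh (F Ω L : Type) [Field F] [Field Ω] [Algebra F Ω] [Field L] extends
    Coh Ω L where
  act : ∀ (i : ℕ) {K K' : Type} [Field K] [Algebra Ω K] [Field K'] [Algebra Ω K'],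
    (K →+* K') → (H i K ⟶ H i K')
  cyc : (Ω ≃ₐ[F] Ω) →* Lˣ
  alg : ∀ (K K' : Type) [Field K] [Algebra Ω K] [Field K'] [Algebra Ω K'], Set (H 1 K ⟶ H 1 K')

variable {F Ω L : Type} [Field F] [Field Ω] [Algebra F Ω] [Field L]

/-- functoriality for homomorphisms over automorphisms of `Ω` -/
def GalCoh.ActMap (T : GalCoh F Ω L) : Prop :=
  ∀ (i : ℕ) (K K' : Type) [Field K] [Algebra Ω K] [Field K'] [Algebra Ω K'] (g : K →ₐ[Ω] K'),
    T.act i (g : K →+* K') = T.map i g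

/-- functoriality for homomorphisms over automorphisms of `Ω` -/
def GalCoh.ActComp (T : GalCoh F Ω L) : Prop :=
  ∀ (i : ℕ) (K K' K'' : Type) [Field K] [Algebra Ω K] [Field K'] [Algebra Ω K'] [Field K'']
    [Algebra Ω K''] (σ τ : Ω ≃+* Ω) (γ : K' →+* K'') (δ : K →+* K'), IsOver σ γ → IsOver τ δ →
    T.act i (γ.comp δ) = T.act i δ ≫ T.act i γ

/-- The subspace `P` is stable under the action of `U`. -/
def GalCoh.Stable (T : GalCoh F Ω L) (U : Subgroup (Ω ≃ₐ[F] Ω)) {K : Type} [Field K]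
    [Algebra Ω K] (γ : (Ω ≃ₐ[F] Ω) → (K →+* K)) (P : Submodule L (T.H 1 K)) : Prop :=
  ∀ τ ∈ U, ∀ t ∈ P, (T.act 1 (γ τ)).hom t ∈ P

/-- `H 1 K` is a semisimple representation (Weil, Faltings). -/
def GalCoh.Semisimple (T : GalCoh F Ω L) : Prop :=
  ∀ (K : Type) [Field K] [Algebra Ω K] (U : Subgroup (Ω ≃ₐ[F] Ω))
    (γ : (Ω ≃ₐ[F] Ω) → (K →+* K)), (⊤ : IntermediateField Ω K).FG →
    IsOpen (U : Set (Ω ≃ₐ[F] Ω)) → IsForm U γ →
    ∀ P, T.Stable U γ P → ∃ Q, T.Stable U γ Q ∧ IsCompl P Q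

/-- Equivariant homomorphisms are linear combinations of algebraic ones (Tate, Faltings). -/
def GalCoh.TateHom (T : GalCoh F Ω L) : Prop :=
  ∀ (K K' : Type) [Field K] [Algebra Ω K] [Field K'] [Algebra Ω K'] (U : Subgroup (Ω ≃ₐ[F] Ω))
    (γ : (Ω ≃ₐ[F] Ω) → (K →+* K)) (γ' : (Ω ≃ₐ[F] Ω) → (K' →+* K')),
    (⊤ : IntermediateField Ω K).FG → (⊤ : IntermediateField Ω K').FG →
    IsOpen (U : Set (Ω ≃ₐ[F] Ω)) → IsForm U γ → IsForm U γ' →
    ∀ A : T.H 1 K ⟶ T.H 1 K', (∀ τ ∈ U, A ≫ T.act 1 (γ' τ) = T.act 1 (γ τ) ≫ A) → A ∈ T.alg K K'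

/-- `g` is an equivariant homomorphism from `H 1 D (-1)` to `H 2 K ⊗ H 1 C`. -/
def GalCoh.IsHom (T : GalCoh F Ω L) {K C D : Type} [Field K] [Algebra Ω K] [Field C]
    [Algebra Ω C] [Field D] [Algebra Ω D] (V : Subgroup (Ω ≃ₐ[F] Ω))
    (γ : (Ω ≃ₐ[F] Ω) → (K →+* K)) (γ' : (Ω ≃ₐ[F] Ω) → (C →+* C))
    (δ : (Ω ≃ₐ[F] Ω) → (D →+* D)) (g : T.H 1 D ⟶ T.H 2 K ⊗ T.H 1 C) : Prop :=
  ∀ τ ∈ V, (T.cyc τ : L) • (g ≫ (T.act 2 (γ τ) ⊗ₘ T.act 1 (γ' τ))) = T.act 1 (δ τ) ≫ g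

/-- the contraction over `C` of `g ∘ A`, an element of `H 2 K ⊗ H 1 C ⊗ (H 1 C)^*`, evaluated at
the linear form `ξ` on `H 2 K` -/
noncomputable def GalCoh.contraction (T : GalCoh F Ω L) {K C D : Type} [Field K] [Algebra Ω K]
    [Field C] [Algebra Ω C] [Field D] [Algebra Ω D] (g : T.H 1 D ⟶ T.H 2 K ⊗ T.H 1 C)
    (A : T.H 1 C ⟶ T.H 1 D) (ξ : T.H 2 K ⟶ 𝟙_ (ModuleCat.{0} L)) : L :=
  LinearMap.trace L (T.H 1 C) (A ≫ g ≫ (ξ ▷ T.H 1 C) ≫ (λ_ (T.H 1 C)).hom).hom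

/-- The kernel of `h` is the image of `g`. -/
def IsExact {L : Type} [Field L] {A B C : ModuleCat.{0} L} (g : A ⟶ B) (h : B ⟶ C) : Prop :=
  ∀ t, h.hom t = 0 ↔ ∃ s, g.hom s = t

/-- Let `X` be a surface and `C` a curve. The classes in `H^2(X) ⊗ H^1(C)` which vanish at the
generic point of `X × C` are supported on a divisor: they are the image of the first cohomology of a
variety `D` under a correspondence `g`. If `A` is a linear combination of correspondences from `C` to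
`D`, the contraction of `g ∘ A` over `C` is the class of a linear combination of divisors of `X`,
which vanishes at the generic point of `X`. -/
def GalCoh.Gysin (T : GalCoh F Ω L) : Prop :=
  ∀ (K C N : Type) [Field K] [Algebra Ω K] [Field C] [Algebra Ω C] [Field N] [Algebra Ω N]
    (a : K →ₐ[Ω] N) (b : C →ₐ[Ω] N), IsProd a b →
    ∀ (U : Subgroup (Ω ≃ₐ[F] Ω)) (γ : (Ω ≃ₐ[F] Ω) → (K →+* K))
      (γ' : (Ω ≃ₐ[F] Ω) → (C →+* C)), IsOpen (U : Set (Ω ≃ₐ[F] Ω)) → IsForm U γ →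
      IsForm U γ' → ∃ (V : Subgroup (Ω ≃ₐ[F] Ω)) (D : Type) (_ : Field D) (_ : Algebra Ω D)
        (δ : (Ω ≃ₐ[F] Ω) → (D →+* D)) (g : T.H 1 D ⟶ T.H 2 K ⊗ T.H 1 C),
        V ≤ U ∧ IsOpen (V : Set (Ω ≃ₐ[F] Ω)) ∧ (⊤ : IntermediateField Ω D).FG ∧ IsForm V δ ∧
        T.IsHom V γ γ' δ g ∧ IsExact g (T.cross a b) ∧
        ∀ A ∈ T.alg C D, ∀ ξ, T.contraction g A ξ = 0

/-- The axioms. -/
structure GalCoh.IsGalois (T : GalCoh F Ω L) : Prop where
  base : T.IsBase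
  act_map : T.ActMap
  act_comp : T.ActComp
  semisimple : T.Semisimple
  tate : T.TateHom
  gysin : T.Gysin

/-- `V` is the second cohomology of a smooth projective surface `X` over the field of the elements
of `Ω` fixed by `U`, and `K` is the function field of `X` over `Ω`: `ρ` is the Galois action on `V`,
`r` the restriction to the generic point, and `NS` the span of the classes of the curves, that is
the kernel of `r`. -/
structure GalCoh.IsH2 (T : GalCoh F Ω L) {K : Type} [Field K] [Algebra Ω K]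
    (U : Subgroup (Ω ≃ₐ[F] Ω)) (γ : (Ω ≃ₐ[F] Ω) → (K →+* K)) {V : ModuleCat.{0} L}
    (ρ : (Ω ≃ₐ[F] Ω) → (V ⟶ V)) (r : V ⟶ T.H 2 K) (NS : Submodule L V) : Prop where
  comm : ∀ τ ∈ U, ρ τ ≫ r = r ≫ T.act 2 (γ τ)
  ker : ∀ v, r.hom v = 0 ↔ v ∈ NS

/-- `P` is a subrepresentation of an open subgroup of the Galois group, and all the eigenvalues of
every element of this subgroup on the twist `P(1)` are equal to one. -/
def GalCoh.IsTateSub (T : GalCoh F Ω L) {V : ModuleCat.{0} L} (ρ : (Ω ≃ₐ[F] Ω) → (V ⟶ V))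
    (P : Submodule L V) : Prop :=
  ∃ U : Subgroup (Ω ≃ₐ[F] Ω), IsOpen (U : Set (Ω ≃ₐ[F] Ω)) ∧
    ∀ τ ∈ U, ∀ v ∈ P, (ρ τ).hom v ∈ P ∧
      ∃ N : ℕ, (((ρ τ).hom - algebraMap L (Module.End L V) (((T.cyc τ)⁻¹ : Lˣ) : L)) ^ N) v = 0

end Pool.Agent.Helper35.GE
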