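import Pool.Agent.Helper35.GE.ConvGal

/-! The conjecture for the surfaces with a given function field. -/

set_option autoImplicit false

namespace Pool.Agent.Helper35.GE

open IntermediateField CategoryTheory

variable {F Ω L : Type} [Field F] [Field Ω] [Algebra F Ω] [Field L]

/-- The conjecture holds for the surfaces with function field `K` over `Ω`. -/
def GalCoh.IsTate (T : GalCoh F Ω L) (K : Type) [Field K] [Algebra Ω K] : Prop :=
  ∀ (U : Subgroup (Ω ≃ₐ[F] Ω)) (γ : (Ω ≃ₐ[F] Ω) → (K →+* K)) (V : ModuleCat.{0} L)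
    (ρ : (Ω ≃ₐ[F] Ω) → (V ⟶ V)) (r : V ⟶ T.H 2 K) (NS : Submodule L V),
    IsOpen (U : Set (Ω ≃ₐ[F] Ω)) → IsForm U γ → T.IsH2 U γ ρ r NS →
    ∀ P, T.IsTateSub ρ P → P ≤ NS

theorem GalCoh.isTate_of_noTate [IsAlgClosed L] (T : GalCoh F Ω L) (h : T.IsGalois) {K : Type}
    [Field K] [Algebra Ω K] (hfin : (⊤ : IntermediateField Ω K).FG)
    (H : Pool.Agent.Helper35.TD.NoTate (T.toTheory h) K) : T.IsTate K :=
  fun U γ _ ρ r NS hU hγ hV P hP => T.le_ns h hfin H U hU γ hγ ρ r NS hV P hP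

theorem GalCoh.IsTate.noTate {T : GalCoh F Ω L} (h : T.IsGalois) {K : Type} [Field K]
    [Algebra Ω K] (H : T.IsTate K) : Pool.Agent.Helper35.TD.NoTate (T.toTheory h) K := by
  intro U hU γ hγ t ht
  have h1 := H U γ (T.H 2 K) (fun τ => T.act 2 (γ τ)) (𝟙 _) ⊥ hU hγ
    ⟨fun τ _ => by rw [Category.comp_id, Category.id_comp], fun v => by
      rw [Submodule.mem_bot]; rfl⟩ (Submodule.span L {t}) ⟨U, hU, fun τ hτ v hv => by
      obtain ⟨a, rfl⟩ := Submodule.mem_span_singleton.1 hv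
      have e : (T.act 2 (γ τ)).hom t = ((T.cyc τ)⁻¹ : Lˣ) • t := ht τ hτ
      refine ⟨?_, 1, ?_⟩
      · rw [map_smul, e]
        exact Submodule.smul_mem _ _ (Submodule.smul_mem _ _ (Submodule.mem_span_singleton_self t))
      · rw [pow_one, LinearMap.sub_apply, map_smul, e, Module.algebraMap_end_apply, smul_comm]
        exact sub_self _⟩
  exact (Submodule.mem_bot L).1 (h1 (Submodule.mem_span_singleton_self t))

end Pool.Agent.Helper35.GE
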